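import Mathlib
import Pool.Agent.H659.Defs
import Pool.Agent.H659.Base

set_option autoImplicit false

universe u

namespace Pool.Agent.Results.MP_e7684b_al.NotFinBased

open Pool.Agent.H659

/-- Over every field `F` of characteristic `3` there is a set `S` of identities such that the
variety defined by `S` consists of alternative algebras, is solvable, and has no finite basis of
identities. -/
theorem result (F : Type u) [Field F] [CharP F 3] :
    ∃ S : Set (NAPoly F),
      (∀ (A : Type u) [NonUnitalNonAssocRing A] [Module F A] [IsScalarTower F A A]
        [SMulCommClass F A A], InVariety S A →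
          (∀ x y : A, (x * x) * y - x * (x * y) = 0) ∧
          (∀ x y : A, (y * x) * x - y * (x * x) = 0) ∧
          derivedSeries F A 3 = ⊥) ∧
      ¬ FinitelyBased S ∧ ¬ TIdealFG S := by
  refine ⟨Sall F, ?_, Sall_not_finitelyBased F,
    fun h => Sall_not_finitelyBased F (finitelyBased_of_tIdealFG h)⟩
  intro A _ _ _ _ hA
  obtain ⟨hc, ha, hs⟩ := variety_props F A hA
  refine ⟨fun x y => by rw [ha, sub_self], fun x y => ?_, hs⟩
  rw [hc y x, hc (x * y) x, ← ha, hc y (x * x), sub_self]

end Pool.Agent.Results.MP_e7684b_al.NotFinBased
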